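import Pool.Agent.H73.EF.A

set_option autoImplicit false

/-!
# Hermite's criterion, and residue classes of the values of a polynomial modulo a product of primes
-/

namespace Pool.Agent.H73.GP

open Finset Polynomial

/-- the sum of the `(p - 1)`-st powers -/
lemma sum_pow_sub_one (p : ℕ) [hp : Fact p.Prime] : ∑ x : ZMod p, x ^ (p - 1) = -1 := by
  have h1 : ∀ x : ZMod p, x ^ (p - 1) = 1 - if x = 0 then 1 else 0 := by
    intro x
    split_ifs with h
    · rw [h, zero_pow (by have := hp.out.two_le; omega), sub_self]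
    · rw [ZMod.pow_card_sub_one_eq_one h, sub_zero]
  rw [sum_congr rfl (fun x _ => h1 x), sum_sub_distrib, sum_const, card_univ, ZMod.card,
    sum_ite_eq' univ (0 : ZMod p)]
  simp

/-- **Hermite's criterion.**  A polynomial whose degree `d ≥ 2` divides `p - 1` is not a permutation of the field
with `p` elements. -/
theorem hermite {p : ℕ} [hp : Fact p.Prime] (u : (ZMod p)[X]) (d : ℕ) (hd : 2 ≤ d) (hu : u.natDegree = d)
    (hdp : d ∣ p - 1) : ∃ x y : ZMod p, x ≠ y ∧ u.eval x = u.eval y := by
  classical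
  by_contra hcon
  push Not at hcon
  have hinj : Function.Injective fun x : ZMod p => u.eval x := by
    intro x y hxy
    by_contra h
    exact hcon x y h hxy
  have hbij : Function.Bijective fun x : ZMod p => u.eval x := Finite.injective_iff_bijective.1 hinj
  obtain ⟨m, hm⟩ := hdp
  have hp2 := hp.out.two_le
  have hm0 : 0 < m := by
    rcases Nat.eq_zero_or_pos m with h | h
    · rw [h, mul_zero] at hm
      omega
    · exact h
  have hmp : m < p - 1 := by
    rw [hm]
    nlinarith
  have h1 : ∑ x : ZMod p, (u.eval x) ^ m = 0 := by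
    rw [hbij.sum_comp (fun y : ZMod p => y ^ m)]
    exact FiniteField.sum_pow_lt_card_sub_one (ZMod p) m (by rw [ZMod.card]; exact hmp)
  have hu0 : u ≠ 0 := by
    rintro rfl
    rw [natDegree_zero] at hu
    omega
  have hdeg : (u ^ m).natDegree = p - 1 := by
    rw [natDegree_pow, hu, hm, mul_comm]
  have h2 : ∀ x : ZMod p, (u.eval x) ^ m = ∑ i ∈ range (p - 1 + 1), (u ^ m).coeff i * x ^ i := by
    intro x
    rw [← eval_pow]
    exact eval_eq_sum_range' (by rw [hdeg]; omega) x
  rw [sum_congr rfl (fun x _ => h2 x), sum_comm, sum_range_succ] at h1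
  have h3 : ∑ i ∈ range (p - 1), ∑ x : ZMod p, (u ^ m).coeff i * x ^ i = 0 := by
    apply sum_eq_zero
    intro i hi
    rw [← mul_sum, FiniteField.sum_pow_lt_card_sub_one (ZMod p) i (by rw [ZMod.card]; exact mem_range.1 hi),
      mul_zero]
  rw [h3, zero_add, ← mul_sum, sum_pow_sub_one] at h1
  have h4 : (u ^ m).coeff (p - 1) ≠ 0 := by
    rw [← hdeg]
    exact leadingCoeff_ne_zero.2 (pow_ne_zero _ hu0)
  rw [mul_neg, mul_one, neg_eq_zero] at h1
  exact h4 h1

open Classical in
/-- the values of `U` modulo `p`: at least `p / (2 d)` residue classes are missed -/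
theorem missed (U : ℤ[X]) (d : ℕ) (hd : 2 ≤ d) (hU : U.natDegree = d) {p : ℕ} (hp : p.Prime) (hdp : d ∣ p - 1)
    (hlc : ¬ (p : ℤ) ∣ U.leadingCoeff) :
    1 / (2 * d : ℝ) * p ≤ p - (((range p).filter fun n : ℕ =>
      ∃ k : ℤ, ((U.eval k : ℤ) : ZMod p) = (n : ZMod p)).card : ℝ) := by
  have fp : Fact p.Prime := ⟨hp⟩
  obtain ⟨u, hu⟩ : ∃ u : (ZMod p)[X], u = U.map (Int.castRingHom (ZMod p)) := ⟨_, rfl⟩
  have hev : ∀ k : ℤ, u.eval (k : ZMod p) = ((U.eval k : ℤ) : ZMod p) := by
    intro k
    rw [hu, eval_intCast_map]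
    rfl
  have hud : u.natDegree = d := by
    rw [hu, ← hU]
    apply natDegree_map_of_leadingCoeff_ne_zero
    intro h
    apply hlc
    rw [← ZMod.intCast_zmod_eq_zero_iff_dvd]
    exact h
  obtain ⟨x, y, hxy, huxy⟩ := hermite u d hd hud hdp
  have h1 := Pool.Agent.K7.H67.SIV.few_values u d (by omega) hud.le x y hxy huxy
  have h2 : ((range p).filter fun n : ℕ => ∃ k : ℤ, ((U.eval k : ℤ) : ZMod p) = (n : ZMod p)).card
      ≤ (univ.image (fun z => u.eval z)).card := by
    apply card_le_card_of_injOn (fun a : ℕ => (a : ZMod p))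
    · intro a ha
      rw [mem_coe, mem_filter] at ha
      obtain ⟨k, hk⟩ := ha.2
      rw [mem_coe, mem_image]
      exact ⟨(k : ZMod p), mem_univ _, by rw [hev, hk]⟩
    · intro a ha b hb hab
      rw [mem_coe, mem_filter, mem_range] at ha hb
      have h6 := (ZMod.natCast_eq_natCast_iff' a b p).1 hab
      rwa [Nat.mod_eq_of_lt ha.1, Nat.mod_eq_of_lt hb.1] at h6
  have h3 : ((((range p).filter fun n : ℕ =>
      ∃ k : ℤ, ((U.eval k : ℤ) : ZMod p) = (n : ZMod p)).card : ℕ) : ℝ) ≤
      ((univ.image (fun z => u.eval z)).card : ℝ) := by exact_mod_cast h2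
  have h4 : 1 / (2 * d : ℝ) * p = p / (2 * d) := by ring
  rw [h4]
  linarith

/-- residue classes modulo a product of primes -/
theorem card_classes (P : Finset ℕ) (hP : ∀ p ∈ P, p.Prime) (I : ∀ p : ℕ, ZMod p → Prop)
    [∀ p, DecidablePred (I p)] :
    ((range (∏ p ∈ P, p)).filter fun c : ℕ => ∀ p ∈ P, I p (c : ZMod p)).card ≤
      ∏ p ∈ P, ((range p).filter fun c : ℕ => I p (c : ZMod p)).card := by
  classical
  rw [← card_pi]
  apply card_le_card_of_injOn (fun c : ℕ => fun (p : ℕ) (_ : p ∈ P) => c % p)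
  · intro c hc
    rw [mem_coe, mem_filter] at hc
    rw [mem_coe, mem_pi]
    intro p hp
    have hp0 := (hP p hp).pos
    rw [mem_filter, mem_range]
    refine ⟨Nat.mod_lt _ hp0, ?_⟩
    rw [ZMod.natCast_mod]
    exact hc.2 p hp
  · intro c hc c' hc' h
    rw [mem_coe, mem_filter, mem_range] at hc hc'
    have h1 : ∀ p ∈ P, c % p = c' % p := by
      intro p hp
      have := congrFun (congrFun h p) hp
      exact this
    have h2 : (∏ p ∈ P, (p : ℤ)) ∣ (c : ℤ) - c' := by
      apply Finset.prod_dvd_of_coprime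
      · intro a ha b hb hab
        rw [Function.onFun, Nat.isCoprime_iff_coprime]
        exact (Nat.coprime_primes (hP a ha) (hP b hb)).2 hab
      · intro p hp
        have h3 : (c : ℤ) ≡ c' [ZMOD p] := by
          rw [Int.natCast_modEq_iff]
          exact h1 p hp
        exact h3.symm.dvd
    have h4 : ((∏ p ∈ P, p : ℕ) : ℤ) ∣ (c : ℤ) - c' := by
      push_cast
      exact h2
    have h5 : (c : ℤ) - c' = 0 := by
      apply Int.eq_zero_of_abs_lt_dvd h4
      rw [abs_lt]
      constructor
      · have := hc'.1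
        have : (c' : ℤ) < ((∏ p ∈ P, p : ℕ) : ℤ) := by exact_mod_cast this
        have := Int.natCast_nonneg c
        linarith
      · have := hc.1
        have : (c : ℤ) < ((∏ p ∈ P, p : ℕ) : ℤ) := by exact_mod_cast this
        have := Int.natCast_nonneg c'
        linarith
    have : (c : ℤ) = c' := by linarith
    exact_mod_cast this

end Pool.Agent.H73.GP
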