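import Pool.Graph.R_pool_sql_team_seeded_1e53cb71.Helper3K9.EV.Val

set_option autoImplicit false

/-!
# The value set of a polynomial over a finite field which contains a root of unity

The library theorem `Helper3K9.EV.value_set` (polynomials of even degree; the root of unity `-1`) in general, with
an explicit bound.
-/

namespace Pool.Agent.H73.GP

open Polynomial Pool.Agent.Helper3K9.EV

section

variable {F : Type} [Field F]

theorem geom_root {D : ℕ} {ζ : F} (hζ1 : ζ ≠ 1) (hζ : ζ ^ D = 1) :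
    (∑ j ∈ Finset.range D, (X : F[X]) ^ j).eval ζ = 0 := by
  have h := congrArg (eval ζ) (mul_neg_geom_sum (X : F[X]) D)
  simp only [eval_mul, eval_sub, eval_one, eval_X, eval_pow, hζ, sub_self] at h
  rcases mul_eq_zero.1 h with h | h
  · exact absurd (sub_eq_zero.1 h).symm hζ1
  · exact h

theorem geom_root_der {D : ℕ} {ζ : F} (hζ1 : ζ ≠ 1) (hζ : ζ ^ D = 1) (hDF : (D : F) ≠ 0) :
    (derivative (∑ j ∈ Finset.range D, (X : F[X]) ^ j)).eval ζ ≠ 0 := by
  intro h0
  have hD0 : D ≠ 0 := by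
    rintro rfl
    exact hDF Nat.cast_zero
  have hζ0 : ζ ≠ 0 := by
    rintro rfl
    rw [zero_pow hD0] at hζ
    exact zero_ne_one hζ
  have h1 := congrArg derivative (mul_neg_geom_sum (X : F[X]) D)
  rw [derivative_mul] at h1
  have h := congrArg (eval ζ) h1
  simp only [eval_add, eval_mul, geom_root hζ1 hζ, h0, mul_zero, add_zero, derivative_sub,
    derivative_one, derivative_X_pow, zero_sub, eval_neg, eval_C, eval_pow, eval_X] at h
  have h3 : (D : F) * ζ ^ (D - 1) = 0 := by
    rw [← neg_eq_zero]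
    exact h.symm
  rcases mul_eq_zero.1 h3 with h4 | h4
  · exact hDF h4
  · exact pow_ne_zero _ hζ0 h4

end

theorem q0_le (D : ℕ) (hD : 4 ≤ D) (K : ℕ) (hK : K = Pool.Agent.R410.PW.WC D D (2 * D * D)) :
    (2 * K + 4 * D) ^ 2 ≤ 16 * D ^ 8 := by
  have h1 : 2 * K + 4 * D ≤ 4 * D ^ 4 := by
    rw [hK]
    unfold Pool.Agent.R410.PW.WC
    obtain ⟨e, rfl⟩ := Nat.exists_eq_add_of_le hD
    have h2 : 4 * (4 + e) ^ 4 = (2 * (((4 + e) * (4 + e) * (4 + e) + 1) * ((4 + e) + 1) + 1 +
        (1 + (4 + e) + 2 * (4 + e) * (4 + e) * (4 + e))) + 4 * (4 + e)) +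
        (90 + 216 * e + 120 * e ^ 2 + 26 * e ^ 3 + 2 * e ^ 4) := by ring
    omega
  calc (2 * K + 4 * D) ^ 2 ≤ (4 * D ^ 4) ^ 2 := Nat.pow_le_pow_left h1 2
    _ = 16 * D ^ 8 := by ring

/-- **Value sets.**  A monic polynomial of degree `D` over a finite field `F` with at least `16 D ^ 8` elements
which contains a `D`-th root of unity different from `1` omits at least `|F| / (2 D)` values. -/
theorem value_set (D : ℕ) (hD4 : 4 ≤ D) (F : Type) [Field F] [Fintype F]
    [DecidableEq F] (hq16 : 16 * D ^ 8 ≤ Fintype.card F) (hDF : (D : F) ≠ 0) (ζ : F) (hζ1 : ζ ≠ 1)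
    (hζ : ζ ^ D = 1) (Ψ : F[X]) (hΨ : Ψ.coeff D = 1) (hΨd : Ψ.natDegree ≤ D) :
    ((Finset.univ.image fun x => Ψ.eval x).card : ℝ) ≤ (1 - 1 / (2 * D)) * Fintype.card F := by
  obtain ⟨K, hK⟩ : ∃ K : ℕ, K = Pool.Agent.R410.PW.WC D D (2 * D * D) := ⟨_, rfl⟩
  have hD2 : 2 ≤ D := by omega
  have hq := (q0_le D hD4 K hK).trans hq16
  classical
  obtain ⟨q, hqd⟩ : ∃ q, q = Fintype.card F := ⟨_, rfl⟩
  rw [← hqd] at hq ⊢
  obtain ⟨G, hG⟩ : ∃ G, G = Gs Ψ D := ⟨_, rfl⟩
  have hGm : G.Monic := by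
    rw [hG]
    exact monic_Gs Ψ D (by omega) hΨ
  have hG0 : G.map (evalRingHom 0) = ∑ j ∈ Finset.range D, X ^ j := by
    rw [hG, map_Gs_zero Ψ D hΨ]
  obtain ⟨Φ, hΦm, hΦG, hirr, hΦ0⟩ := exists_absirr (k := AlgebraicClosure F) hGm (z₀ := ζ)
    (by rw [hG0]; exact geom_root hζ1 hζ) (by rw [hG0]; exact geom_root_der hζ1 hζ hDF)
  have hirrF : Irreducible Φ := hΦm.irreducible_of_irreducible_map _ _ hirr
  have hcoef : ∀ i, (Φ.coeff i).natDegree ≤ D := fun i =>
    coeff_natDegree_of_dvd hGm.ne_zero hΦG (fun i => by rw [hG]; exact natDegree_coeff_Gs Ψ D i) i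
  have hΦd : Φ.natDegree ≤ D := by
    refine (natDegree_le_of_dvd hΦG hGm.ne_zero).trans ?_
    rw [hG]
    exact (natDegree_Gs_lt Ψ D (by omega)).le
  have hΦ' : derivative Φ ≠ 0 := by
    intro h0
    obtain ⟨R, hR⟩ := hΦG
    have h1 := geom_root_der (F := F) hζ1 hζ hDF
    apply h1
    rw [← hG0, hR, Polynomial.map_mul, derivative_mul, eval_add, eval_mul, eval_mul, hΦ0, zero_mul,
      add_zero, derivative_map, h0]
    simp
  obtain ⟨A, B, D₀, hAB, hD₀, hD₀d⟩ := exists_AB hΦm hirrF hΦ' hcoef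
  have hΦpos : 0 < Φ.natDegree := by
    rw [Nat.pos_iff_ne_zero]
    intro h0
    have := eq_one_of_monic_natDegree_zero hΦm h0
    exact hirrF.not_isUnit (this ▸ isUnit_one)
  have hW := Pool.Agent.R410.PW.weil (AlgebraicClosure F) hΦm hΦpos hAB hD₀ hD₀d hcoef hirr
  have hWC : Pool.Agent.R410.PW.WC Φ.natDegree D (2 * Φ.natDegree * D) ≤ K := by
    rw [hK]
    unfold Pool.Agent.R410.PW.WC
    gcongr
  rw [Nat.card_eq_fintype_card, ← hqd] at hW
  have hsq : ((2 * K + 4 * D : ℕ) : ℝ) ≤ √(q : ℝ) := by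
    apply Real.le_sqrt_of_sq_le
    exact_mod_cast hq
  have hqq : √(q : ℝ) * √(q : ℝ) = q := Real.mul_self_sqrt (by positivity)
  -- the points of the curve
  obtain ⟨Z, hZ⟩ : ∃ Z : Finset (F × F), Z = Finset.univ.filter fun z => evalEval z.1 z.2 Φ = 0 := ⟨_, rfl⟩
  have hZc : ({z : F × F | evalEval z.1 z.2 Φ = 0}.ncard : ℝ) = Z.card := by
    rw [← Set.ncard_coe_finset, hZ]
    congr 2
    ext z
    simp
  rw [hZc] at hW
  have hZG : ∀ z ∈ Z, evalEval z.1 z.2 G = 0 := by
    intro z hz
    rw [hZ, Finset.mem_filter] at hz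
    obtain ⟨R, hR⟩ := hΦG
    rw [hR, evalEval_mul, hz.2, zero_mul]
  -- the points with `s = 0`
  have hZ0 : (Z.filter fun z => z.1 = 0).card ≤ D := by
    obtain ⟨P, hP⟩ : ∃ P : F[X], P = ∑ j ∈ Finset.range D, X ^ j := ⟨_, rfl⟩
    have hPG : G.map (evalRingHom 0) = P := by rw [hG0, hP]
    have hPm : P.Monic := by
      rw [← hPG]
      exact hGm.map _
    have hPd : P.natDegree ≤ D := by
      rw [← hPG, hGm.natDegree_map, hG]
      exact (natDegree_Gs_lt Ψ D (by omega)).le
    calc (Z.filter fun z => z.1 = 0).card ≤ (P.roots.toFinset).card := by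
          apply Finset.card_le_card_of_injOn (fun z => z.2)
          · intro z hz
            rw [Finset.mem_coe, Finset.mem_filter] at hz
            rw [Finset.mem_coe, Multiset.mem_toFinset, mem_roots hPm.ne_zero, IsRoot.def, ← hPG]
            have h3 := hZG z hz.1
            rw [hz.2] at h3
            rw [eval_map, eval₂_evalRingHom]
            exact h3
          · intro z hz z' hz' h
            rw [Finset.mem_coe, Finset.mem_filter] at hz hz'
            exact Prod.ext (by rw [hz.2, hz'.2]) h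
      _ ≤ P.natDegree := (Multiset.toFinset_card_le _).trans (card_roots' _)
      _ ≤ D := hPd
  -- the points with `z = 1`
  have hZ1 : (Z.filter fun z => z.2 = 1).card ≤ D := by
    obtain ⟨P, hP⟩ : ∃ P : F[X], P = G.eval 1 := ⟨_, rfl⟩
    have hPe : ∀ s, P.eval s = evalEval s 1 G := by
      intro s
      rw [hP, evalEval, C_1]
    have hP0 : P ≠ 0 := by
      intro h0
      have h3 := hPe 0
      rw [h0, eval_zero] at h3
      have h4 : evalEval 0 1 G = (G.map (evalRingHom 0)).eval 1 := by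
        rw [eval_map, eval₂_evalRingHom]
      rw [h4, hG0] at h3
      apply hDF
      rw [h3]
      simp [eval_finsetSum]
    have hPd : P.natDegree ≤ D := by
      rw [hP, eval_eq_sum_range]
      apply natDegree_sum_le_of_forall_le
      intro i _
      rw [one_pow, mul_one, hG]
      exact natDegree_coeff_Gs Ψ D i
    calc (Z.filter fun z => z.2 = 1).card ≤ (P.roots.toFinset).card := by
          apply Finset.card_le_card_of_injOn (fun z => z.1)
          · intro z hz
            rw [Finset.mem_coe, Finset.mem_filter] at hz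
            rw [Finset.mem_coe, Multiset.mem_toFinset, mem_roots hP0, IsRoot.def, hPe]
            have h3 := hZG z hz.1
            rw [hz.2] at h3
            exact h3
          · intro z hz z' hz' h
            rw [Finset.mem_coe, Finset.mem_filter] at hz hz'
            exact Prod.ext h (by rw [hz.2, hz'.2])
      _ ≤ P.natDegree := (Multiset.toFinset_card_le _).trans (card_roots' _)
      _ ≤ D := hPd
  -- pairs with the same value
  obtain ⟨Z', hZ'⟩ : ∃ Z' : Finset (F × F), Z' = Z.filter fun z => ¬ (z.1 = 0 ∨ z.2 = 1) := ⟨_, rfl⟩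
  have hZZ' : Z.card ≤ Z'.card + 2 * D := by
    have h3 : (Z.filter fun z => z.1 = 0 ∨ z.2 = 1).card ≤ 2 * D := by
      rw [Finset.filter_or]
      refine (Finset.card_union_le _ _).trans ?_
      omega
    have h4 := Finset.card_filter_add_card_filter_not (s := Z) (fun z => z.1 = 0 ∨ z.2 = 1)
    rw [← hZ'] at h4
    omega
  have hpairs : Z'.card ≤ ((Finset.univ : Finset F).offDiag.filter fun z =>
      Ψ.eval z.1 = Ψ.eval z.2).card := by
    apply Finset.card_le_card_of_injOn (fun z => (1 / z.1, z.2 / z.1))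
    · intro z hz
      rw [Finset.mem_coe, hZ', Finset.mem_filter] at hz
      push Not at hz
      obtain ⟨hz1, hz2, hz3⟩ := hz
      rw [Finset.mem_coe, Finset.mem_filter, Finset.mem_offDiag]
      refine ⟨⟨Finset.mem_univ _, Finset.mem_univ _, ?_⟩, ?_⟩
      · intro h
        apply hz3
        have h' : 1 / z.1 = z.2 / z.1 := h
        rw [div_left_inj' hz2] at h'
        exact h'.symm
      · exact eq_of_Gs hΨd hz2 (by rw [← hG]; exact hZG z hz1)
    · intro z hz z' hz' h
      rw [Finset.mem_coe, hZ', Finset.mem_filter] at hz hz'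
      push Not at hz hz'
      have h' := Prod.ext_iff.1 h
      obtain ⟨h3, h4⟩ := h'
      simp only [one_div, inv_inj] at h3
      simp only at h4
      rw [h3, div_left_inj' (by rw [← h3]; exact hz.2.1)] at h4
      exact Prod.ext h3 h4
  have hroots : ∀ b, (Finset.univ.filter fun a => Ψ.eval a = b).card ≤ D := by
    intro b
    have hne : Ψ - C b ≠ 0 := by
      intro h0
      have h3 := congrArg (fun P => coeff P D) h0
      simp only [coeff_sub, hΨ, coeff_zero, coeff_C, if_neg (show ¬ D = 0 by omega), sub_zero] at h3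
      exact one_ne_zero h3
    calc (Finset.univ.filter fun a => Ψ.eval a = b).card ≤ (Ψ - C b).roots.toFinset.card := by
          apply Finset.card_le_card
          intro a ha
          rw [Finset.mem_filter] at ha
          rw [Multiset.mem_toFinset, mem_roots hne, IsRoot.def, eval_sub, eval_C, ha.2, sub_self]
      _ ≤ (Ψ - C b).natDegree := (Multiset.toFinset_card_le _).trans (card_roots' _)
      _ ≤ D := (natDegree_sub_le _ _).trans (max_le hΨd (by rw [natDegree_C]; omega))
  have hfin := image_le (fun a => Ψ.eval a) D (by omega) hroots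
  rw [← hqd] at hfin
  have hD0 : (0 : ℝ) < D := by
    have : (2 : ℝ) ≤ D := by exact_mod_cast hD2
    linarith
  have h3 : (q : ℝ) / 2 ≤ (((Finset.univ : Finset F).offDiag.filter fun z =>
      Ψ.eval z.1 = Ψ.eval z.2).card : ℝ) := by
    have h4 := (abs_le.1 hW).1
    have h5 : (Z.card : ℝ) ≤ Z'.card + 2 * D := by exact_mod_cast hZZ'
    have h6 : (Z'.card : ℝ) ≤ (((Finset.univ : Finset F).offDiag.filter fun z =>
      Ψ.eval z.1 = Ψ.eval z.2).card : ℝ) := by exact_mod_cast hpairs
    have h7 : (Pool.Agent.R410.PW.WC Φ.natDegree D (2 * Φ.natDegree * D) : ℝ) ≤ K := by exact_mod_cast hWC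
    have h8 : (Pool.Agent.R410.PW.WC Φ.natDegree D (2 * Φ.natDegree * D) : ℝ) * √(q : ℝ) ≤ K * √(q : ℝ) := by
      gcongr
    push_cast at hsq
    have h9 : (0 : ℝ) ≤ K := by positivity
    have h10 : (1 : ℝ) ≤ √(q : ℝ) := by
      have : (2 : ℝ) ≤ D := by exact_mod_cast hD2
      linarith
    nlinarith
  have h4 : (q : ℝ) / 2 / D ≤ (((Finset.univ : Finset F).offDiag.filter fun z =>
      Ψ.eval z.1 = Ψ.eval z.2).card : ℝ) / D := by
    gcongr
  have h5 : (q : ℝ) / 2 / D = 1 / (2 * D) * q := by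
    field_simp
  linarith


end Pool.Agent.H73.GP
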