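import Pool.Agent.H73.GP.A
import Pool.Agent.H73.GP.B
import Pool.Agent.H73.GP.V
import Pool.Graph.R_seed8.TH375.KL.Sieve

set_option autoImplicit false

/-!
# Three sieves with the value sets of polynomials
-/

namespace Pool.Agent.H73.GP

open Finset Polynomial Pool.Agent.H73.CU Pool.Agent.H73.EF

/-- `x` is a value of `U` modulo `p` -/
def Val (U : ℤ[X]) (p : ℕ) (x : ZMod p) : Prop := ∃ k : ℤ, ((U.eval k : ℤ) : ZMod p) = x

/-- a root of unity -/
theorem exists_root_of_unity {p d : ℕ} [hp : Fact p.Prime] (hd : d ≠ 0) (h : Nat.gcd d (p - 1) ≠ 1) :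
    ∃ ζ : ZMod p, ζ ≠ 1 ∧ ζ ^ d = 1 := by
  obtain ⟨r, hr, hrg⟩ := Nat.exists_prime_and_dvd h
  have fr : Fact r.Prime := ⟨hr⟩
  have h1 : r ∣ Fintype.card (ZMod p)ˣ := by
    rw [ZMod.card_units]
    exact hrg.trans (Nat.gcd_dvd_right _ _)
  obtain ⟨x, hx⟩ := exists_prime_orderOf_dvd_card r h1
  refine ⟨(x : ZMod p), ?_, ?_⟩
  · intro h2
    have h3 : x = 1 := Units.ext h2
    rw [h3, orderOf_one] at hx
    exact hr.one_lt.ne hx
  · obtain ⟨e, he⟩ := hrg.trans (Nat.gcd_dvd_left _ _)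
    have h2 : x ^ d = 1 := by
      rw [he, pow_mul, ← hx, pow_orderOf_eq_one, one_pow]
    have h3 := congrArg (fun u : (ZMod p)ˣ => (u : ZMod p)) h2
    simpa using h3

open Classical in
/-- the values of `U` modulo `p`: at least `p / (2 d)` residue classes are missed -/
theorem missed' (U : ℤ[X]) (d : ℕ) (hd : 4 ≤ d) {p : ℕ} (hp : p.Prime) (hpd : 16 * d ^ 8 ≤ p)
    (hgcd : Nat.gcd d (p - 1) ≠ 1)
    (hU : (U.natDegree = d ∧ ¬ (p : ℤ) ∣ U.leadingCoeff) ∨ U.natDegree = 0) :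
    1 / (2 * d : ℝ) * p ≤ p - (((range p).filter fun n : ℕ => Val U p (n : ZMod p)).card : ℝ) := by
  have fp : Fact p.Prime := ⟨hp⟩
  have hdr : (4 : ℝ) ≤ d := by exact_mod_cast hd
  rcases hU with ⟨hU, hlc⟩ | hU
  · obtain ⟨u, hu⟩ : ∃ u : (ZMod p)[X], u = U.map (Int.castRingHom (ZMod p)) := ⟨_, rfl⟩
    have hev : ∀ k : ℤ, u.eval (k : ZMod p) = ((U.eval k : ℤ) : ZMod p) := by
      intro k
      rw [hu, eval_intCast_map]
      rfl
    have hlc' : Int.castRingHom (ZMod p) U.leadingCoeff ≠ 0 := by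
      intro h
      apply hlc
      rw [← ZMod.intCast_zmod_eq_zero_iff_dvd]
      exact h
    have hud : u.natDegree = d := by
      rw [hu, ← hU]
      exact natDegree_map_of_leadingCoeff_ne_zero _ hlc'
    have hcd : u.coeff d ≠ 0 := by
      rw [← hud]
      apply leadingCoeff_ne_zero.2
      rintro h0
      rw [h0, natDegree_zero] at hud
      omega
    obtain ⟨Ψ, hΨ⟩ : ∃ Ψ : (ZMod p)[X], Ψ = C (u.coeff d)⁻¹ * u := ⟨_, rfl⟩
    have h1 : Ψ.coeff d = 1 := by rw [hΨ, coeff_C_mul, inv_mul_cancel₀ hcd]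
    have h2 : Ψ.natDegree ≤ d := by
      rw [hΨ, ← hud]
      exact natDegree_C_mul_le _ _
    have hpd' : p > d := by
      have h3 : d ≤ d ^ 8 := Nat.le_self_pow (by norm_num) d
      omega
    have hdF : (d : ZMod p) ≠ 0 := by
      intro h
      rw [ZMod.natCast_eq_zero_iff] at h
      have := Nat.le_of_dvd (by omega) h
      omega
    obtain ⟨ζ, hζ1, hζ⟩ := exists_root_of_unity (p := p) (d := d) (by omega) hgcd
    have h3 := value_set d hd (ZMod p) (by rw [ZMod.card]; exact hpd) hdF ζ hζ1 hζ Ψ h1 h2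
    rw [ZMod.card] at h3
    have h4 : ((range p).filter fun n : ℕ => Val U p (n : ZMod p)).card
        ≤ (univ.image (fun z => Ψ.eval z)).card := by
      apply card_le_card_of_injOn (fun a : ℕ => (u.coeff d)⁻¹ * (a : ZMod p))
      · intro a ha
        rw [mem_coe, mem_filter] at ha
        obtain ⟨k, hk⟩ := ha.2
        rw [mem_coe, mem_image]
        refine ⟨(k : ZMod p), mem_univ _, ?_⟩
        rw [hΨ, eval_mul, eval_C, hev, hk]
      · intro a ha b hb hab
        rw [mem_coe, mem_filter, mem_range] at ha hb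
        have h5 : (a : ZMod p) = (b : ZMod p) := mul_left_cancel₀ (inv_ne_zero hcd) hab
        have h6 := (ZMod.natCast_eq_natCast_iff' a b p).1 h5
        rwa [Nat.mod_eq_of_lt ha.1, Nat.mod_eq_of_lt hb.1] at h6
    have h5 : ((((range p).filter fun n : ℕ => Val U p (n : ZMod p)).card : ℕ) : ℝ) ≤
        ((univ.image (fun z => Ψ.eval z)).card : ℝ) := by exact_mod_cast h4
    have h6 : (1 - 1 / (2 * (d : ℝ))) * p = p - 1 / (2 * (d : ℝ)) * p := by ring
    rw [h6] at h3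
    linarith
  · rw [natDegree_eq_zero] at hU
    obtain ⟨c, rfl⟩ := hU
    have h2 : ((range p).filter fun n : ℕ => Val (C c) p (n : ZMod p)).card ≤ 1 := by
      rw [card_le_one]
      intro x hx y hy
      rw [mem_filter, mem_range] at hx hy
      obtain ⟨hx1, k, hk⟩ := hx
      obtain ⟨hy1, l, hl⟩ := hy
      rw [eval_C] at hk hl
      have h6 := (ZMod.natCast_eq_natCast_iff' x y p).1 (hk.symm.trans hl)
      rwa [Nat.mod_eq_of_lt hx1, Nat.mod_eq_of_lt hy1] at h6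
    have h3 : ((((range p).filter fun n : ℕ => Val (C c) p (n : ZMod p)).card : ℕ) : ℝ) ≤ 1 := by
      exact_mod_cast h2
    have h4 : (2 : ℝ) ≤ p := by exact_mod_cast hp.two_le
    have h5 : 1 / (2 * d : ℝ) ≤ 1 / 2 := by
      apply one_div_le_one_div_of_le (by norm_num)
      linarith
    have h6 : 1 / (2 * d : ℝ) * p ≤ 1 / 2 * p := mul_le_mul_of_nonneg_right h5 (by linarith)
    linarith

section

variable {U : ℤ[X]} {d : ℕ} {P : Finset ℕ}
  (hd : 4 ≤ d) (hP : ∀ p ∈ P, p.Prime ∧ 16 * d ^ 8 ≤ p ∧ Nat.gcd d (p - 1) ≠ 1)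
  (hU : (U.natDegree = d ∧ ∀ p ∈ P, ¬ (p : ℤ) ∣ U.leadingCoeff) ∨ U.natDegree = 0)

include hd hP hU

theorem missed_P {p : ℕ} (hp : p ∈ P) :
    open scoped Classical in 1 / (2 * d : ℝ) * p ≤
      p - (((range p).filter fun n : ℕ => Val U p (n : ZMod p)).card : ℝ) := by
  apply missed' U d hd (hP p hp).1 (hP p hp).2.1 (hP p hp).2.2
  rcases hU with h | h
  · exact Or.inl ⟨h.1, h.2 p hp⟩
  · exact Or.inr h

open Classical in
/-- residue classes -/
theorem count_classes :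
    (((range (∏ p ∈ P, p)).filter fun c : ℕ => ∀ p ∈ P, Val U p (c : ZMod p)).card : ℝ) ≤
      (1 - 1 / (2 * d : ℝ)) ^ P.card * ((∏ p ∈ P, p : ℕ) : ℝ) := by
  have h1 := card_classes P (fun p hp => (hP p hp).1) (fun p x => Val U p x)
  have h2 : (((range (∏ p ∈ P, p)).filter fun c : ℕ => ∀ p ∈ P, Val U p (c : ZMod p)).card : ℝ) ≤
      ∏ p ∈ P, (((range p).filter fun c : ℕ => Val U p (c : ZMod p)).card : ℝ) := by
    exact_mod_cast h1
  refine h2.trans ?_
  calc ∏ p ∈ P, (((range p).filter fun c : ℕ => Val U p (c : ZMod p)).card : ℝ) ≤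
        ∏ p ∈ P, ((1 - 1 / (2 * d : ℝ)) * p) := by
        apply prod_le_prod
        · intro p _
          positivity
        · intro p hp
          have := missed_P hd hP hU hp
          linarith
    _ = (1 - 1 / (2 * d : ℝ)) ^ P.card * ((∏ p ∈ P, p : ℕ) : ℝ) := by
        rw [prod_mul_distrib, prod_const]
        push_cast
        rfl

open Classical in
/-- arithmetic progressions with a difference prime to `P` -/
theorem count_interval (Q H : ℕ) (hQ : ∀ p ∈ P, p ≤ Q) (X q : ℤ) (hq : ∀ p ∈ P, ¬ (p : ℤ) ∣ q) :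
    (((Icc 1 H).filter fun n : ℕ => ∀ p ∈ P, Val U p ((X + q * n : ℤ) : ZMod p)).card : ℝ) * P.card ≤
      24 * (d : ℝ) ^ 2 * (H + (Q : ℝ) ^ 2) := by
  have hdr : (4 : ℝ) ≤ d := by exact_mod_cast hd
  rcases P.eq_empty_or_nonempty with rfl | hPne
  · rw [card_empty]
    push_cast
    rw [mul_zero]
    positivity
  have hPc : (1 : ℝ) ≤ P.card := by exact_mod_cast card_pos.2 hPne
  obtain ⟨m, hm⟩ : ∃ m : ℕ → ℝ, m = fun p =>
    ((((range p).filter fun n : ℕ => Val U p (n : ZMod p)).card : ℝ) / p) := ⟨_, rfl⟩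
  obtain ⟨g, hg⟩ : ∃ g : ∀ p : ℕ, ZMod p → ℝ, g = fun p t =>
      (if Val U p ((X : ZMod p) + (q : ZMod p) * t) then (1 : ℝ) else 0) - m p :=
    ⟨_, rfl⟩
  have hm01 : ∀ p, 0 ≤ m p ∧ m p ≤ 1 := by
    intro p
    rw [hm]
    refine ⟨by positivity, ?_⟩
    simp only
    apply div_le_one_of_le₀ _ (Nat.cast_nonneg p)
    have := card_filter_le (range p) (fun n : ℕ => Val U p (n : ZMod p))
    rw [card_range] at this
    exact_mod_cast this
  have h1 : ∀ p t, |g p t| ≤ 1 := by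
    intro p t
    rw [hg, abs_le]
    simp only
    have := hm01 p
    split_ifs <;> constructor <;> linarith
  have hbij : ∀ p ∈ P, ((range p).filter fun n : ℕ =>
      Val U p ((X : ZMod p) + (q : ZMod p) * (n : ZMod p))).card =
      ((range p).filter fun n : ℕ => Val U p (n : ZMod p)).card := by
    intro p hp
    have fp : Fact p.Prime := ⟨(hP p hp).1⟩
    have hq0 : (q : ZMod p) ≠ 0 := by
      intro h
      exact hq p hp ((ZMod.intCast_zmod_eq_zero_iff_dvd q p).1 h)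
    have hval : ∀ x : ZMod p, ((x.val : ℕ) : ZMod p) = x := fun x => ZMod.natCast_zmod_val x
    refine card_bij' (fun n _ => ((X : ZMod p) + (q : ZMod p) * (n : ZMod p)).val)
      (fun n _ => ((q : ZMod p)⁻¹ * ((n : ZMod p) - (X : ZMod p))).val) ?_ ?_ ?_ ?_
    · intro n hn
      rw [mem_filter] at hn
      refine mem_filter.2 ⟨mem_range.2 (ZMod.val_lt _), ?_⟩
      rw [hval]
      exact hn.2
    · intro n hn
      rw [mem_filter] at hn
      refine mem_filter.2 ⟨mem_range.2 (ZMod.val_lt _), ?_⟩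
      rw [hval, mul_inv_cancel_left₀ hq0, add_sub_cancel]
      exact hn.2
    · intro n hn
      rw [mem_filter, mem_range] at hn
      rw [hval, add_sub_cancel_left, inv_mul_cancel_left₀ hq0, ZMod.val_natCast,
        Nat.mod_eq_of_lt hn.1]
    · intro n hn
      rw [mem_filter, mem_range] at hn
      rw [hval, mul_inv_cancel_left₀ hq0, add_sub_cancel, ZMod.val_natCast,
        Nat.mod_eq_of_lt hn.1]
  have h0 : ∀ p ∈ P, ∑ n ∈ range p, g p (n : ZMod p) = 0 := by
    intro p hp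
    have hp0 : (p : ℝ) ≠ 0 := by exact_mod_cast (hP p hp).1.ne_zero
    rw [hg]
    simp only
    rw [sum_sub_distrib, sum_boole, sum_const, card_range, nsmul_eq_mul, hbij p hp, hm]
    field_simp
    ring
  have hV : ∑ p ∈ P, (∑ n ∈ range p, g p (n : ZMod p) ^ 2) / p ≤ (P.card : ℝ) := by
    calc ∑ p ∈ P, (∑ n ∈ range p, g p (n : ZMod p) ^ 2) / p ≤ ∑ _p ∈ P, (1 : ℝ) := by
          refine sum_le_sum fun p hp => ?_
          apply div_le_one_of_le₀ _ (Nat.cast_nonneg p)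
          calc ∑ n ∈ range p, g p (n : ZMod p) ^ 2 ≤ ∑ _n ∈ range p, (1 : ℝ) := by
                refine sum_le_sum fun n _ => ?_
                rw [← sq_abs]
                exact pow_le_one₀ (abs_nonneg _) (h1 _ _)
            _ = p := by rw [sum_const, card_range, nsmul_eq_mul, mul_one]
      _ = P.card := by rw [sum_const, nsmul_eq_mul, mul_one]
  have hdual := Pool.Agent.TH375.KL.dual Q H P (fun p hp => ⟨(hP p hp).1, hQ p hp⟩) 0 g h0
  have hlow : ∀ n ∈ (Icc 1 H).filter fun n : ℕ => ∀ p ∈ P, Val U p ((X + q * n : ℤ) : ZMod p),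
      (1 / (2 * d : ℝ) * P.card) ^ 2 ≤ (∑ p ∈ P, g p ((0 + (n : ℤ) : ℤ) : ZMod p)) ^ 2 := by
    intro n hn
    apply pow_le_pow_left₀ (by positivity)
    calc 1 / (2 * d : ℝ) * P.card = ∑ _p ∈ P, 1 / (2 * d : ℝ) := by rw [sum_const, nsmul_eq_mul]; ring
      _ ≤ ∑ p ∈ P, g p ((0 + (n : ℤ) : ℤ) : ZMod p) := by
          refine sum_le_sum fun p hp => ?_
          have hpp : (0 : ℝ) < p := by exact_mod_cast (hP p hp).1.pos
          have hv : Val U p ((X : ZMod p) + (q : ZMod p) * ((0 + (n : ℤ) : ℤ) : ZMod p)) := by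
            have := (mem_filter.1 hn).2 p hp
            push_cast at this ⊢
            rw [zero_add]
            exact this
          rw [hg]
          simp only
          rw [if_pos hv, hm]
          simp only
          have := missed_P hd hP hU hp
          rw [le_sub_comm, div_le_iff₀ hpp]
          linarith
  obtain ⟨s, hs⟩ : ∃ s : ℝ, s = (((Icc 1 H).filter fun n : ℕ =>
    ∀ p ∈ P, Val U p ((X + q * n : ℤ) : ZMod p)).card : ℝ) := ⟨_, rfl⟩
  have hs0 : 0 ≤ s := by rw [hs]; positivity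
  have h2 : s * (1 / (2 * d : ℝ) * P.card) ^ 2 ≤ 6 * (H + (Q : ℝ) ^ 2) * P.card := by
    calc s * (1 / (2 * d : ℝ) * P.card) ^ 2 = ∑ _n ∈ (Icc 1 H).filter fun n : ℕ =>
          ∀ p ∈ P, Val U p ((X + q * n : ℤ) : ZMod p), (1 / (2 * d : ℝ) * P.card) ^ 2 := by
          rw [sum_const, nsmul_eq_mul, hs]
      _ ≤ ∑ n ∈ (Icc 1 H).filter fun n : ℕ => ∀ p ∈ P, Val U p ((X + q * n : ℤ) : ZMod p),
            (∑ p ∈ P, g p ((0 + (n : ℤ) : ℤ) : ZMod p)) ^ 2 := sum_le_sum hlow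
      _ ≤ ∑ n ∈ Icc 1 H, (∑ p ∈ P, g p ((0 + (n : ℤ) : ℤ) : ZMod p)) ^ 2 :=
          sum_le_sum_of_subset_of_nonneg (filter_subset _ _) (fun _ _ _ => sq_nonneg _)
      _ ≤ _ := hdual.trans (mul_le_mul_of_nonneg_left hV (by positivity))
  rw [← hs]
  have h3 : s * P.card ^ 2 ≤ 24 * (d : ℝ) ^ 2 * (H + (Q : ℝ) ^ 2) * P.card := by
    have e1 : s * (1 / (2 * d : ℝ) * P.card) ^ 2 = s * P.card ^ 2 / (4 * (d : ℝ) ^ 2) := by
      field_simp
      ring
    rw [e1, div_le_iff₀ (by positivity)] at h2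
    linarith
  have h4 : (s * P.card) * P.card ≤ (24 * (d : ℝ) ^ 2 * (H + (Q : ℝ) ^ 2)) * P.card := by
    calc (s * P.card) * P.card = s * P.card ^ 2 := by ring
      _ ≤ _ := h3
  exact le_of_mul_le_mul_right h4 (by linarith)

open Classical in
/-- sequences which are linear along progressions -/
theorem count_lin {D : ℤ} {a : ℕ → ℤ} (ha : Lin D a) (hPD : ∀ p ∈ P, ¬ (p : ℤ) ∣ D) (N : ℕ)
    (hN : ∀ p ∈ P, p ^ 8 ≤ N) :
    (((range N).filter fun n => ∀ p ∈ P, Val U p (a n : ZMod p)).card : ℝ) * P.card ≤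
      56 * (d : ℝ) ^ 2 * N := by
  have hdr : (4 : ℝ) ≤ d := by exact_mod_cast hd
  rcases P.eq_empty_or_nonempty with rfl | hPne
  · rw [card_empty]
    push_cast
    rw [mul_zero]
    positivity
  obtain ⟨Q, hQ⟩ : ∃ Q : ℕ, Q = P.sup id := ⟨_, rfl⟩
  have hQN : Q ^ 8 ≤ N := by
    obtain ⟨p, hp, hpe⟩ := exists_mem_eq_sup P hPne id
    rw [hQ, hpe]
    exact hN p hp
  have h1 := sieve ha P Q N (fun p hp => ⟨⟨(hP p hp).1, by
      rintro rfl
      have h2 := (hP 2 hp).2.1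
      have h3 : 1 ≤ d ^ 8 := Nat.one_le_pow _ _ (by omega)
      omega, hPD p hp⟩, by rw [hQ]; exact le_sup (f := id) hp⟩) hQN
    (fun p t => Val U p t) (1 / (2 * d)) (by positivity) (fun p hp => missed_P hd hP hU hp)
  obtain ⟨s, hs⟩ : ∃ s : ℝ, s = (((range N).filter fun n =>
    ∀ p ∈ P, Val U p (a n : ZMod p)).card : ℝ) := ⟨_, rfl⟩
  rw [← hs] at h1 ⊢
  have e1 : s * ((1 / (2 * d : ℝ)) ^ 2 * P.card) = s * P.card / (4 * (d : ℝ) ^ 2) := by
    field_simp
    ring
  rw [e1, div_le_iff₀ (by positivity)] at h1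
  linarith

end

end Pool.Agent.H73.GP
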