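import Pool.Graph.R_pool_sql_team_seeded_35f281b4.K7.H90.DE.F
import Pool.Graph.R_pool_sql_team_seeded_35f281b4.K7.H60.SQ.PN
import Pool.Agent.H73.GP.B

set_option autoImplicit false

/-!
# Primes congruent to one modulo `r` modulo which a polynomial has no root
-/

namespace Pool.Agent.H73.GP

open Polynomial NumberField Filter Topology Pool.Agent.W401.Cheb Pool.Agent.Q202.RT Pool.Agent.K7.H90.DE
  MulAction

/-- a normal subgroup whose index is prime to the number of points is transitive -/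
theorem pretransitive_of_coprime {G X : Type*} [Group G] [Finite G] [MulAction G X] [Finite X]
    [IsPretransitive G X] (N : Subgroup G) [N.Normal] (h : Nat.Coprime N.index (Nat.card X)) :
    IsPretransitive N X := by
  refine ⟨fun x y => ?_⟩
  obtain ⟨g, hg⟩ := exists_smul_eq G x y
  have h1 : (N ⊔ stabilizer G x).index ∣ N.index := Subgroup.index_dvd_of_le le_sup_left
  have h2 : (N ⊔ stabilizer G x).index ∣ Nat.card X := by
    rw [← index_stabilizer_of_transitive (G := G) (x := x)]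
    exact Subgroup.index_dvd_of_le le_sup_right
  have h3 : (N ⊔ stabilizer G x).index = 1 := Nat.eq_one_of_dvd_coprimes h h1 h2
  have h4 : g ∈ N ⊔ stabilizer G x := by
    rw [Subgroup.index_eq_one.1 h3]
    exact Subgroup.mem_top g
  rw [Subgroup.mem_sup_of_normal_left] at h4
  obtain ⟨n, hn, s, hs, hns⟩ := h4
  refine ⟨⟨n, hn⟩, ?_⟩
  rw [← hg, ← hns, mul_smul, mem_stabilizer_iff.1 hs]
  rfl

/-- an automorphism which fixes the `r`-th roots of unity and no root of `f` -/
theorem exists_sigma' (f : ℤ[X]) (hf : f.Monic) (hirr : Irreducible f) (hdeg : 2 ≤ f.natDegree)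
    (r : ℕ) (hr : r.Prime) (hcop : Nat.Coprime (r - 1) f.natDegree)
    (L : Type) [Field L] [NumberField L] [IsGalois ℚ L]
    (hs : (f.map (Int.castRingHom L)).Splits) (ζ : L) (hζ : IsPrimitiveRoot ζ r) :
    ∃ σ : Gal(L/ℚ), σ ζ = ζ ∧ ∀ θ : 𝓞 L, Polynomial.aeval θ f = 0 → σ • θ ≠ θ := by
  classical
  have hr0 : NeZero r := ⟨hr.ne_zero⟩
  have hr1 : Fact (1 < r) := ⟨hr.one_lt⟩
  have fr : Fact r.Prime := ⟨hr⟩
  set F : ℚ[X] := f.map (Int.castRingHom ℚ) with hF
  have hFm : F.Monic := hf.map _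
  have hFirr : Irreducible F :=
    (Polynomial.IsPrimitive.Int.irreducible_iff_irreducible_map_cast hf.isPrimitive).1 hirr
  have hFdeg : F.natDegree = f.natDegree := hf.natDegree_map _
  have hFL : F.map (algebraMap ℚ L) = f.map (Int.castRingHom L) := by
    rw [hF, Polynomial.map_map]
    congr 1
    exact RingHom.ext_int _ _
  have hFs : (F.map (algebraMap ℚ L)).Splits := by rw [hFL]; exact hs
  let X₀ : Type := {x : L // aeval x F = 0}
  let _ : MulAction Gal(L/ℚ) X₀ :=
    { smul := fun σ x => ⟨σ x.1, by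
        rw [Polynomial.aeval_algEquiv, AlgHom.comp_apply, x.2]; simp⟩
      one_smul := fun x => rfl
      mul_smul := fun σ τ x => rfl }
  have hmem : ∀ x : L, x ∈ F.rootSet L ↔ aeval x F = 0 := by
    intro x
    rw [Polynomial.mem_rootSet_of_ne hFm.ne_zero]
  have hcard : Nat.card X₀ = f.natDegree := by
    have h1 : Fintype.card (F.rootSet L) = F.natDegree :=
      Polynomial.card_rootSet_eq_natDegree hFirr.separable hFs
    rw [← hFdeg, ← h1, ← Nat.card_eq_fintype_card]
    refine Nat.card_congr ⟨fun x => ⟨x.1, (hmem _).2 x.2⟩, fun x => ⟨x.1, (hmem _).1 x.2⟩,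
      fun x => rfl, fun x => rfl⟩
  have : Finite X₀ := Nat.finite_of_card_ne_zero (by omega)
  have : IsPretransitive Gal(L/ℚ) X₀ := by
    refine ⟨fun x y => ?_⟩
    have hmin : minpoly ℚ y.1 = F := (minpoly.eq_of_irreducible_of_monic hFirr y.2 hFm).symm
    have hy : IsAlgebraic ℚ y.1 := Algebra.IsAlgebraic.isAlgebraic _
    obtain ⟨σ, hσ⟩ := minpoly.exists_algEquiv_of_root (L := L) hy (x := x.1) (by rw [hmin]; exact x.2)
    exact ⟨σ, Subtype.ext hσ⟩
  -- the automorphisms which fix the roots of unity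
  let χ : Gal(L/ℚ) →* (ZMod r)ˣ := hζ.autToPow ℚ
  have hindex : χ.ker.index ∣ r - 1 := by
    rw [Subgroup.index_ker]
    have h1 := Subgroup.card_subgroup_dvd_card χ.range
    rw [Nat.card_eq_fintype_card, Nat.card_eq_fintype_card, ZMod.card_units] at h1
    rw [Nat.card_eq_fintype_card]
    exact h1
  have hNt : IsPretransitive χ.ker X₀ := by
    apply pretransitive_of_coprime
    rw [hcard]
    exact Nat.Coprime.of_dvd_left hindex hcop
  obtain ⟨σ, hσ⟩ := exists_derangement (G := χ.ker) (X := X₀) (by omega)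
  refine ⟨σ.1, ?_, fun θ hθ h => ?_⟩
  · have h1 := hζ.autToPow_spec ℚ σ.1
    have h2 : hζ.autToPow ℚ σ.1 = 1 := σ.2
    rw [h2, Units.val_one, ZMod.val_one, pow_one] at h1
    exact h1.symm
  · have h1 : aeval (θ : L) F = 0 := by
      rw [hF, Polynomial.aeval_def, Polynomial.eval₂_map]
      have h2 : (algebraMap ℚ L).comp (Int.castRingHom ℚ) = (algebraMap (𝓞 L) L).comp (algebraMap ℤ (𝓞 L)) :=
        RingHom.ext_int _ _
      rw [h2, ← Polynomial.hom_eval₂, ← Polynomial.aeval_def, hθ, map_zero]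
    refine hσ ⟨(θ : L), h1⟩ (Subtype.ext ?_)
    have := congrArg (algebraMap (𝓞 L) L) h
    exact this

/-- a Galois number field in which `f` splits and which contains a primitive `r`-th root of unity -/
theorem exists_L' (f : ℤ[X]) (hf : f.Monic) (hirr : Irreducible f) (hdeg : 2 ≤ f.natDegree)
    (r : ℕ) (hr : r.Prime) (hcop : Nat.Coprime (r - 1) f.natDegree) :
    ∃ (L : Type) (_ : Field L) (_ : NumberField L) (_ : IsGalois ℚ L) (ζ : L),
      (f.map (Int.castRingHom L)).Splits ∧ IsPrimitiveRoot ζ r := by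
  have hFirr : Irreducible (f.map (Int.castRingHom ℚ)) :=
    (Polynomial.IsPrimitive.Int.irreducible_iff_irreducible_map_cast hf.isPrimitive).1 hirr
  have hc : Irreducible (cyclotomic r ℚ) := cyclotomic.irreducible_rat hr.pos
  have hcd : (cyclotomic r ℚ).natDegree = r - 1 := by
    rw [natDegree_cyclotomic, Nat.totient_prime hr]
  have hcopr : IsCoprime (f.map (Int.castRingHom ℚ)) (cyclotomic r ℚ) := by
    rw [hFirr.coprime_iff_not_dvd]
    intro hdvd
    have h1 := (hFirr.associated_of_dvd hc hdvd)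
    have h2 : (f.map (Int.castRingHom ℚ)).natDegree = (cyclotomic r ℚ).natDegree :=
      natDegree_eq_of_degree_eq (degree_eq_degree_of_associated h1)
    rw [hf.natDegree_map, hcd] at h2
    rw [h2, Nat.coprime_self] at hcop
    omega
  obtain ⟨L, i1, i2, i3, hsp⟩ := exists_L (f.map (Int.castRingHom ℚ) * cyclotomic r ℚ)
    (hFirr.separable.mul hc.separable hcopr)
  have hne : (f.map (Int.castRingHom ℚ) * cyclotomic r ℚ).map (algebraMap ℚ L) ≠ 0 :=
    (Polynomial.map_ne_zero_iff (algebraMap ℚ L).injective).2 (mul_ne_zero hFirr.ne_zero hc.ne_zero)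
  rw [Polynomial.map_mul] at hsp hne
  have h1 : (f.map (Int.castRingHom L)).Splits := by
    have h2 := hsp.of_dvd hne (dvd_mul_right _ _)
    rw [Polynomial.map_map] at h2
    have h3 : (algebraMap ℚ L).comp (Int.castRingHom ℚ) = Int.castRingHom L :=
      RingHom.ext_int _ _
    rw [h3] at h2
    exact h2
  have h2 : (cyclotomic r L).Splits := by
    have h3 := hsp.of_dvd hne (dvd_mul_left _ _)
    rw [map_cyclotomic] at h3
    exact h3
  have h3 : (cyclotomic r L).degree ≠ 0 := by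
    rw [degree_cyclotomic, Nat.totient_prime hr]
    have := hr.two_le
    have h4 : r - 1 ≠ 0 := by omega
    exact_mod_cast h4
  obtain ⟨ζ, hζ⟩ := h2.exists_eval_eq_zero h3
  have hnz : NeZero (r : L) := ⟨by exact_mod_cast hr.ne_zero⟩
  exact ⟨L, i1, i2, i3, ζ, h1, isRoot_cyclotomic_iff.1 hζ⟩

/-- the primes congruent to one modulo `r` modulo which `f` has no root have positive density -/
theorem dens_good (f : ℤ[X]) (hf : f.Monic) (hirr : Irreducible f) (hdeg : 2 ≤ f.natDegree)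
    (r : ℕ) (hr : r.Prime) (hcop : Nat.Coprime (r - 1) f.natDegree) :
    ∃ δ : ℝ, 0 < δ ∧ Tendsto (M fun q => open scoped Classical in
      if (q : ZMod r) = 1 ∧ ¬ ∃ a : ℤ, (q : ℤ) ∣ f.eval a then 1 else 0) atTop (𝓝 δ) := by
  classical
  have hr0 : NeZero r := ⟨hr.ne_zero⟩
  have hr1 : Fact (1 < r) := ⟨hr.one_lt⟩
  obtain ⟨L, _, _, _, ζ, hs, hζ⟩ := exists_L' f hf hirr hdeg r hr hcop
  obtain ⟨t, ht⟩ := split_ring f hf L hs
  obtain ⟨σ, hσζ, hσ⟩ := exists_sigma' f hf hirr hdeg r hr hcop L hs ζ hζ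
  obtain ⟨D0, hD0, hinj⟩ := inj_red (L := L) t.toFinset
  set C : Finset Gal(L/ℚ) := Finset.univ.filter fun τ => τ ζ = ζ ∧ ∀ θ ∈ t, τ • θ ≠ θ with hC
  have hroot : ∀ θ ∈ t, aeval θ f = 0 := by
    intro θ hθ
    have h2 := congrArg (Polynomial.eval θ) ht
    rw [Polynomial.eval_map, Polynomial.eval_multiset_prod, Multiset.map_map] at h2
    rw [Polynomial.aeval_def]
    have h3 : algebraMap ℤ (𝓞 L) = Int.castRingHom (𝓞 L) := RingHom.ext_int _ _
    rw [h3, h2, Multiset.prod_eq_zero_iff, Multiset.mem_map]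
    exact ⟨θ, hθ, by simp⟩
  have hσC : σ ∈ C := by
    rw [hC, Finset.mem_filter]
    exact ⟨Finset.mem_univ _, hσζ, fun θ hθ => hσ θ (hroot θ hθ)⟩
  refine ⟨(C.card : ℝ) / Nat.card Gal(L/ℚ), ?_, ?_⟩
  · have h1 : 0 < C.card := Finset.card_pos.2 ⟨σ, hσC⟩
    have h2 : 0 < Nat.card Gal(L/ℚ) := Nat.card_pos
    positivity
  · refine dens_of_frob L C (fun q => (q : ZMod r) = 1 ∧ ¬ ∃ a : ℤ, (q : ℤ) ∣ f.eval a) (D0 * r)
      (Nat.mul_pos hD0 hr.pos) ?_
    intro q hq hqD φ τ hτ
    have hqD0 : ¬ q ∣ D0 := fun h => hqD (h.mul_right _)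
    have hqr : ¬ q ∣ r := fun h => hqD (h.mul_left _)
    rw [root_iff f L t ht φ (fun x hx y hy => hinj q hqD0 φ x (Multiset.mem_toFinset.2 hx) y
      (Multiset.mem_toFinset.2 hy)) τ hτ, hC, Finset.mem_filter]
    have hm := hζ.autToPow_spec ℚ τ
    have h1 := frob_zeta hr.ne_zero hζ hqr φ hτ hm.symm
    rw [ZMod.natCast_zmod_val] at h1
    have h2 : τ ζ = ζ ↔ (q : ZMod r) = 1 := by
      rw [← h1, ← hm]
      constructor
      · intro h
        have h3 : ζ ^ (hζ.autToPow ℚ τ : ZMod r).val = ζ ^ 1 := by rw [h, pow_one]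
        have h4 := hζ.pow_inj (ZMod.val_lt _) hr.one_lt h3
        have h5 := ZMod.natCast_zmod_val (hζ.autToPow ℚ τ : ZMod r)
        rw [h4, Nat.cast_one] at h5
        exact h5.symm
      · intro h
        rw [h, ZMod.val_one, pow_one]
    rw [h2]
    push Not
    exact ⟨fun h => h.2, fun h => ⟨Finset.mem_univ _, h⟩⟩

end Pool.Agent.H73.GP
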