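import Pool.Agent.H73.GP.D

set_option autoImplicit false

/-!
# Good primes
-/

namespace Pool.Agent.H73.GP

open Polynomial Finset Filter Topology Pool.Agent.W401.Cheb Pool.Agent.H322R2

/-- the leading form in the coordinates `x`, `y - u x` -/
theorem eval_lead {F : MvPolynomial (Fin 2) ℤ} (u : ℕ) (x s : ℤ) :
    MvPolynomial.eval ![x, s + u * x] (MvPolynomial.homogeneousComponent F.totalDegree F) =
      ∑ j ∈ range (F.totalDegree + 1), (lead F.totalDegree (F2 F u)).coeff j *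
        x ^ j * s ^ (F.totalDegree - j) := by
  have h1 := congrArg (MvPolynomial.eval ![x, s]) (homogenize_lead (u : ℤ) F)
  rw [eval_shE] at h1
  have h2 : (![(![x, s] : Fin 2 → ℤ) 0, (![x, s] : Fin 2 → ℤ) 1 + (u : ℤ) * (![x, s] : Fin 2 → ℤ) 0] :
      Fin 2 → ℤ) = ![x, s + u * x] := by
    funext i
    fin_cases i <;> simp
  rw [h2] at h1
  rw [← h1, homogenize, map_sum, Nat.sum_antidiagonal_eq_sum_range_succ_mk]
  apply sum_congr rfl
  intro j hj
  rw [MvPolynomial.eval_monomial, Finsupp.prod_fintype _ _ (by simp), Fin.prod_univ_two]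
  simp [F2, mul_assoc]

/-- the leading form has no zero modulo `q` if the normalised dehomogenised form has no root -/
theorem noZero_of {F : MvPolynomial (Fin 2) ℤ} {u : ℕ} (hc : lc F u ≠ 0) (hd : 1 ≤ F.totalDegree)
    {q : ℕ} (hq : q.Prime) (hqc : ¬ (q : ℤ) ∣ lc F u)
    (hroot : ¬ ∃ a : ℤ, (q : ℤ) ∣ (lead F.totalDegree (GG F u)).eval a) : NoZero F q := by
  have fq : Fact q.Prime := ⟨hq⟩
  have hqi : Prime (q : ℤ) := Nat.prime_iff_prime_int.1 hq
  intro x y hxy
  obtain ⟨s, hs⟩ : ∃ s : ℤ, s = y - u * x := ⟨_, rfl⟩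
  have hy : y = s + u * x := by rw [hs]; ring
  rw [hy, eval_lead] at hxy
  have hqs : (q : ℤ) ∣ s := by
    by_contra hns
    apply hroot
    -- the inverse of `s`
    have hs0 : (s : ZMod q) ≠ 0 := by
      rw [Ne, ZMod.intCast_zmod_eq_zero_iff_dvd]
      exact hns
    obtain ⟨z, hz⟩ := ZMod.intCast_surjective (((lc F u : ℤ) : ZMod q) * ((x : ZMod q) * (s : ZMod q)⁻¹))
    refine ⟨z, ?_⟩
    rw [← ZMod.intCast_zmod_eq_zero_iff_dvd]
    have h1 := integralNormalization_eval₂_leadingCoeff_mul (p := lead F.totalDegree (F2 F u))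
      (by rw [lead_F2_natDegree hc]; omega) (Int.castRingHom (ZMod q)) ((x : ZMod q) * (s : ZMod q)⁻¹)
    rw [lead_F2_leadingCoeff hc, ← lead_GG hc] at h1
    have h2 : eval₂ (Int.castRingHom (ZMod q)) ((x : ZMod q) * (s : ZMod q)⁻¹)
        (lead F.totalDegree (F2 F u)) = 0 := by
      rw [eval₂_eq_sum_range' _ (n := F.totalDegree + 1) (by rw [lead_F2_natDegree hc]; omega)]
      have h3 : (s : ZMod q) ^ F.totalDegree * ∑ i ∈ range (F.totalDegree + 1),
          (Int.castRingHom (ZMod q)) ((lead F.totalDegree (F2 F u)).coeff i) *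
            ((x : ZMod q) * (s : ZMod q)⁻¹) ^ i = 0 := by
        rw [mul_sum]
        rw [← ZMod.intCast_zmod_eq_zero_iff_dvd] at hxy
        push_cast at hxy
        rw [← hxy]
        apply sum_congr rfl
        intro i hi
        rw [mem_range] at hi
        have h4 : (s : ZMod q) ^ F.totalDegree = s ^ (F.totalDegree - i) * s ^ i := by
          rw [← pow_add]
          congr 1
          omega
        rw [h4, mul_pow, inv_pow, eq_intCast]
        have h5 : (s : ZMod q) ^ i ≠ 0 := pow_ne_zero _ hs0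
        field_simp
      exact (mul_eq_zero.1 h3).resolve_left (pow_ne_zero _ hs0)
    rw [h2, mul_zero] at h1
    have h3 : (((lead F.totalDegree (GG F u)).eval z : ℤ) : ZMod q) =
        eval₂ (Int.castRingHom (ZMod q)) (z : ZMod q) (lead F.totalDegree (GG F u)) := by
      rw [eval₂_at_intCast]
      rfl
    rw [h3, hz]
    exact h1
  have hqx : (q : ℤ) ∣ x := by
    rw [sum_range_succ, Nat.sub_self, pow_zero, mul_one] at hxy
    have h1 : (q : ℤ) ∣ ∑ j ∈ range F.totalDegree, (lead F.totalDegree (F2 F u)).coeff j *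
        x ^ j * s ^ (F.totalDegree - j) := by
      apply dvd_sum
      intro j hj
      rw [mem_range] at hj
      exact (dvd_pow hqs (by omega)).mul_left _
    have h2 := (dvd_add_right h1).1 hxy
    have h3 : (lead F.totalDegree (F2 F u)).coeff F.totalDegree = lc F u := by
      have := lead_F2_leadingCoeff hc
      rw [leadingCoeff, lead_F2_natDegree hc] at this
      exact this
    rw [h3] at h2
    rcases hqi.dvd_or_dvd h2 with h4 | h4
    · exact absurd h4 hqc
    · exact hqi.dvd_of_dvd_pow h4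
  refine ⟨hqx, ?_⟩
  rw [hy]
  exact dvd_add hqs (hqx.mul_left _)

/-- the good primes -/
def Good (F : MvPolynomial (Fin 2) ℤ) (p : ℕ) : Prop :=
  p.Prime ∧ 16 * F.totalDegree ^ 8 ≤ p ∧ Nat.gcd F.totalDegree (p - 1) ≠ 1 ∧ NoZero F p

open Classical in
/-- **There are many good primes.** -/
theorem many_good (F : MvPolynomial (Fin 2) ℤ) (hd : 2 ≤ F.totalDegree)
    (hirr : Irreducible (MvPolynomial.map (Int.castRingHom ℚ)
      (MvPolynomial.homogeneousComponent F.totalDegree F))) :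
    ∃ c : ℝ, 0 < c ∧ ∃ Q₀ : ℕ, ∀ Q : ℕ, Q₀ ≤ Q →
      c * (Q / Real.log Q) ≤ (((range (Q + 1)).filter (Good F)).card : ℝ) := by
  have hF0 : F ≠ 0 := by
    rintro rfl
    rw [MvPolynomial.totalDegree_zero] at hd
    omega
  obtain ⟨u, hu, hcu⟩ := exists_u F hF0
  have hcl : lc F u ≠ 0 := hcu
  obtain ⟨g, hg⟩ : ∃ g : ℤ[X], g = lead F.totalDegree (GG F u) := ⟨_, rfl⟩
  obtain ⟨hgm, hgd⟩ := lead_monic (GG_monic hcl) (GG_natDegree hcl)
  rw [← hg] at hgm hgd
  have hgirr : Irreducible g := by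
    rw [Polynomial.IsPrimitive.Int.irreducible_iff_irreducible_map_cast hgm.isPrimitive, hg]
    exact lead_irr hcl (by omega) hirr
  obtain ⟨r, hr⟩ : ∃ r : ℕ, r = F.totalDegree.minFac := ⟨_, rfl⟩
  have hrp : r.Prime := by rw [hr]; exact Nat.minFac_prime (by omega)
  have hrd : r ∣ F.totalDegree := by rw [hr]; exact Nat.minFac_dvd _
  have hcop : Nat.Coprime (r - 1) g.natDegree := by
    rw [hgd]
    by_contra hcon
    obtain ⟨l, hl, hl1⟩ := Nat.exists_prime_and_dvd hcon
    have h1 : l ∣ r - 1 := hl1.trans (Nat.gcd_dvd_left _ _)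
    have h2 : l ∣ F.totalDegree := hl1.trans (Nat.gcd_dvd_right _ _)
    have h3 : r ≤ l := by rw [hr]; exact Nat.minFac_le_of_dvd hl.two_le h2
    have h4 := Nat.le_of_dvd (by have := hrp.two_le; omega) h1
    have := hrp.two_le
    omega
  obtain ⟨δ, hδ, hlim⟩ := dens_good g hgm hgirr (by omega) r hrp hcop
  have h1 : ∀ᶠ N : ℕ in atTop, δ / 2 < M (fun q => if (q : ZMod r) = 1 ∧ ¬ ∃ a : ℤ, (q : ℤ) ∣ g.eval a
      then 1 else 0) N := hlim.eventually_const_lt (by linarith)
  have h2 := Pool.Agent.K7.H60.SQ.pi_lower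
  -- finitely many primes are lost
  obtain ⟨B, hB⟩ : ∃ B : ℕ, B = 16 * F.totalDegree ^ 8 + (lc F u).natAbs + 1 := ⟨_, rfl⟩
  have h3 : ∀ᶠ Q : ℕ in atTop, (B : ℝ) ≤ δ / 8 * (Q / Real.log Q) := by
    have e1 : ∀ᶠ x : ℝ in atTop, Real.log x ≤ x ^ (1 / 2 : ℝ) := by
      have := (isLittleO_log_rpow_atTop (by norm_num : (0 : ℝ) < 1 / 2)).bound (show (0 : ℝ) < 1 by norm_num)
      filter_upwards [this, eventually_ge_atTop (1 : ℝ)] with x hx hx1
      rw [Real.norm_eq_abs, Real.norm_eq_abs, one_mul, abs_of_nonneg (by positivity : (0 : ℝ) ≤ x ^ (1 / 2 : ℝ))] at hx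
      exact (le_abs_self _).trans hx
    have e2 : ∀ᶠ x : ℝ in atTop, (8 * B / δ : ℝ) ≤ x ^ (1 / 2 : ℝ) :=
      (tendsto_rpow_atTop (by norm_num : (0 : ℝ) < 1 / 2)).eventually_ge_atTop _
    have hc := tendsto_natCast_atTop_atTop (R := ℝ)
    filter_upwards [hc.eventually e1, hc.eventually e2, eventually_ge_atTop 3] with Q a1 a2 a3
    have hQ3 : (3 : ℝ) ≤ Q := by exact_mod_cast a3
    have hQ0 : (0 : ℝ) < Q := by linarith
    have hlog : 0 < Real.log Q := Real.log_pos (by linarith)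
    have h4 : (Q : ℝ) ^ (1 / 2 : ℝ) ≤ Q / Real.log Q := by
      rw [le_div_iff₀ hlog]
      calc (Q : ℝ) ^ (1 / 2 : ℝ) * Real.log Q ≤ (Q : ℝ) ^ (1 / 2 : ℝ) * (Q : ℝ) ^ (1 / 2 : ℝ) :=
            mul_le_mul_of_nonneg_left a1 (by positivity)
        _ = Q := by
            rw [← Real.rpow_add hQ0]
            norm_num
    have h5 : 8 * (B : ℝ) / δ ≤ Q / Real.log Q := a2.trans h4
    rw [div_le_iff₀ hδ] at h5
    linarith
  obtain ⟨Q₀, hQ₀⟩ := ((h1.and h2).and h3).exists_forall_of_atTop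
  refine ⟨δ / 8, by positivity, Q₀, fun Q hQ => ?_⟩
  obtain ⟨⟨a1, a2⟩, a3⟩ := hQ₀ Q hQ
  obtain ⟨P₀, hP₀⟩ : ∃ P₀ : Finset ℕ, P₀ = (pr Q).filter (fun q : ℕ => (q : ZMod r) = 1 ∧
    ¬ ∃ a : ℤ, (q : ℤ) ∣ g.eval a) := ⟨_, rfl⟩
  have hP₀c : δ / 2 * (Q / (2 * Real.log Q)) ≤ P₀.card := by
    unfold M at a1
    rw [Finset.sum_boole, ← hP₀] at a1
    have hpi : 0 < (Nat.primeCounting Q : ℝ) := by
      rcases Nat.eq_zero_or_pos (Nat.primeCounting Q) with h0 | h0
      · rw [h0, Nat.cast_zero, div_zero] at a1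
        linarith
      · exact_mod_cast h0
    rw [lt_div_iff₀ hpi] at a1
    calc δ / 2 * (Q / (2 * Real.log Q)) ≤ δ / 2 * Nat.primeCounting Q := by gcongr
      _ ≤ P₀.card := a1.le
  have hsub : P₀ ⊆ (range (Q + 1)).filter (Good F) ∪ range B := by
    intro q hq
    rw [hP₀, mem_filter] at hq
    obtain ⟨hq1, hq2, hq3⟩ := hq
    unfold pr at hq1
    rw [mem_filter, mem_range] at hq1
    rw [mem_union, mem_filter, mem_range, mem_range]
    by_cases hqB : q < B
    · exact Or.inr hqB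
    · left
      refine ⟨hq1.1, hq1.2, by omega, ?_, ?_⟩
      · intro hgcd
        have h4 : r ∣ q - 1 := by
          have h5 : ((q : ℕ) : ZMod r) = ((1 : ℕ) : ZMod r) := by rw [hq2, Nat.cast_one]
          rw [ZMod.natCast_eq_natCast_iff] at h5
          exact (Nat.modEq_iff_dvd' hq1.2.one_lt.le).1 h5.symm
        have h5 : r ∣ Nat.gcd F.totalDegree (q - 1) := Nat.dvd_gcd hrd h4
        rw [hgcd] at h5
        exact hrp.one_lt.ne' (Nat.dvd_one.1 h5)
      · apply noZero_of hcl (by omega) hq1.2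
        · intro h4
          have h5 := Int.natAbs_dvd_natAbs.2 h4
          rw [Int.natAbs_natCast] at h5
          have h6 := Nat.le_of_dvd (Int.natAbs_pos.2 hcl) h5
          omega
        · rw [← hg]
          exact hq3
  have h4 : (P₀.card : ℝ) ≤ (((range (Q + 1)).filter (Good F)).card : ℝ) + B := by
    have h5 := (card_le_card hsub).trans (card_union_le _ _)
    rw [card_range] at h5
    exact_mod_cast h5
  have h5 : δ / 2 * (Q / (2 * Real.log Q)) = δ / 8 * (Q / Real.log Q) + δ / 8 * (Q / Real.log Q) := by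
    rw [div_mul_eq_div_div_swap]
    ring
  linarith

end Pool.Agent.H73.GP
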